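import Pool.Agent.Helper13.Venn.Defs

/-! VD-4: the inverse stereographic projection and restriction of an embedding. -/

namespace Pool.Agent.Helper13.Venn

open Set Metric Topology Bornology

theorem norm_pInf_VD4 : ‖pInf‖ = 1 := by
  rw [EuclideanSpace.norm_eq, Real.sqrt_eq_one]
  simp [pInf, Fin.sum_univ_succ]
  norm_num

theorem exists_iota : ∃ ι : E 4 → E 5, IsEmbedding ι ∧
    range ι = {p : E 5 | ‖p‖ = 1 ∧ p ≠ pInf} := by
  have : Fact (Module.finrank ℝ (E 5) = 4 + 1) := ⟨by simp⟩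
  have hmem : pInf ∈ sphere (0 : E 5) 1 := by
    rw [mem_sphere_zero_iff_norm]
    exact norm_pInf_VD4
  let v : sphere (0 : E 5) 1 := ⟨pInf, hmem⟩
  have hsrc : (stereographic' 4 v).symm.source = univ := by
    rw [OpenPartialHomeomorph.symm_source]
    exact stereographic'_target v
  have htgt : (stereographic' 4 v).symm.target = {v}ᶜ := by
    rw [OpenPartialHomeomorph.symm_target]
    exact stereographic'_source v
  have hemb := (OpenPartialHomeomorph.isOpenEmbedding (stereographic' 4 v).symm hsrc).isEmbedding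
  refine ⟨Subtype.val ∘ (stereographic' 4 v).symm, IsEmbedding.subtypeVal.comp hemb, ?_⟩
  have hrange : range (stereographic' 4 v).symm = {v}ᶜ := by
    rw [← htgt, ← image_univ, ← hsrc]
    exact (stereographic' 4 v).symm.image_source_eq_target
  rw [range_comp, hrange]
  ext p
  constructor
  · rintro ⟨q, hq, rfl⟩
    refine ⟨mem_sphere_zero_iff_norm.1 q.2, ?_⟩
    intro h
    exact hq (Subtype.ext h)
  · rintro ⟨h1, h2⟩
    refine ⟨⟨p, mem_sphere_zero_iff_norm.2 h1⟩, ?_, rfl⟩
    intro h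
    exact h2 (congrArg Subtype.val (show _ = v from h))

theorem preimage_homeo {X Y : Type*} [TopologicalSpace X] [TopologicalSpace Y] (ι : X → Y)
    (hι : IsEmbedding ι) (A : Set Y) (hA : A ⊆ range ι) :
    Nonempty ((ι ⁻¹' A : Set X) ≃ₜ A) := by
  have h1 : IsEmbedding (fun x : (ι ⁻¹' A : Set X) => (⟨ι x.1, x.2⟩ : A)) := by
    have h2 : IsEmbedding (Subtype.val ∘ fun x : (ι ⁻¹' A : Set X) => (⟨ι x.1, x.2⟩ : A)) :=
      hι.comp IsEmbedding.subtypeVal
    exact IsEmbedding.of_comp (by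
      refine Continuous.subtype_mk ?_ _
      exact hι.continuous.comp continuous_subtype_val) continuous_subtype_val h2
  have hs : Function.Surjective (fun x : (ι ⁻¹' A : Set X) => (⟨ι x.1, x.2⟩ : A)) := by
    rintro ⟨y, hy⟩
    obtain ⟨x, rfl⟩ := hA hy
    exact ⟨⟨x, hy⟩, rfl⟩
  exact ⟨h1.toHomeomorphOfSurjective hs⟩

end Pool.Agent.Helper13.Venn
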