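import Pool.Agent.Helper13.Venn.Defs

/-! VD-1: changing the slice of a cone, and transport by homogeneous homeomorphisms. -/

namespace Pool.Agent.Helper13.Venn

open Set Metric Topology Bornology

theorem slice_change {V : Type*} [NormedAddCommGroup V] [NormedSpace ℝ V] (K : Set V)
    (s s' : V → ℝ) (hs : ContinuousOn s K) (hs' : ContinuousOn s' K)
    (hpos : ∀ p ∈ K, 0 < s p) (hpos' : ∀ p ∈ K, 0 < s' p)
    (hK : ∀ p ∈ K, ∀ t : ℝ, 0 < t → t • p ∈ K)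
    (hom : ∀ p ∈ K, ∀ t : ℝ, 0 < t → s (t • p) = t * s p)
    (hom' : ∀ p ∈ K, ∀ t : ℝ, 0 < t → s' (t • p) = t * s' p) :
    Nonempty ({p | p ∈ K ∧ s p = 1} ≃ₜ {p | p ∈ K ∧ s' p = 1}) := by
  refine ⟨{ toFun := fun p => ⟨(s' p.1)⁻¹ • p.1, hK _ p.2.1 _ (inv_pos.2 (hpos' _ p.2.1)), ?_⟩
            invFun := fun q => ⟨(s q.1)⁻¹ • q.1, hK _ q.2.1 _ (inv_pos.2 (hpos _ q.2.1)), ?_⟩
            left_inv := ?_
            right_inv := ?_
            continuous_toFun := ?_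
            continuous_invFun := ?_ }⟩
  · rw [hom' _ p.2.1 _ (inv_pos.2 (hpos' _ p.2.1))]
    exact inv_mul_cancel₀ (hpos' _ p.2.1).ne'
  · rw [hom _ q.2.1 _ (inv_pos.2 (hpos _ q.2.1))]
    exact inv_mul_cancel₀ (hpos _ q.2.1).ne'
  · rintro ⟨p, hp, h1⟩
    apply Subtype.ext
    have h0 : s' p ≠ 0 := (hpos' _ hp).ne'
    show (s ((s' p)⁻¹ • p))⁻¹ • ((s' p)⁻¹ • p) = p
    rw [hom _ hp _ (inv_pos.2 (hpos' _ hp)), h1, mul_one, inv_inv, smul_smul,
      mul_inv_cancel₀ h0, one_smul]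
  · rintro ⟨p, hp, h1⟩
    apply Subtype.ext
    have h0 : s p ≠ 0 := (hpos _ hp).ne'
    show (s' ((s p)⁻¹ • p))⁻¹ • ((s p)⁻¹ • p) = p
    rw [hom' _ hp _ (inv_pos.2 (hpos _ hp)), h1, mul_one, inv_inv, smul_smul,
      mul_inv_cancel₀ h0, one_smul]
  · refine Continuous.subtype_mk ?_ _
    refine Continuous.smul ?_ continuous_subtype_val
    refine Continuous.inv₀ ?_ (fun p => (hpos' _ p.2.1).ne')
    exact hs'.comp_continuous continuous_subtype_val (fun p => p.2.1)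
  · refine Continuous.subtype_mk ?_ _
    refine Continuous.smul ?_ continuous_subtype_val
    refine Continuous.inv₀ ?_ (fun p => (hpos _ p.2.1).ne')
    exact hs.comp_continuous continuous_subtype_val (fun p => p.2.1)

theorem hom_transport {V W : Type*} [NormedAddCommGroup V] [NormedSpace ℝ V]
    [NormedAddCommGroup W] [NormedSpace ℝ W] (Λ : V ≃ₜ W)
    (hom : ∀ (t : ℝ) (p : V), 0 < t → Λ (t • p) = t • Λ p) (L : Set W)
    (hL : ∀ q ∈ L, ∀ t : ℝ, 0 < t → t • q ∈ L) :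
    Nonempty ({p : V | ‖p‖ = 1 ∧ Λ p ∈ L} ≃ₜ {q : W | ‖q‖ = 1 ∧ q ∈ L}) := by
  have h0 : Λ 0 = 0 := by
    have h := hom 2 0 two_pos
    rw [smul_zero, two_smul] at h
    exact left_eq_add.1 h
  have hne : ∀ p : V, ‖p‖ = 1 → 0 < ‖Λ p‖ := by
    intro p hp
    rw [norm_pos_iff]
    intro h
    rw [← h0] at h
    rw [Λ.injective h, norm_zero] at hp
    exact one_ne_zero hp.symm
  have hs0 : Λ.symm 0 = 0 := by rw [← h0, Λ.symm_apply_apply]
  have hnes : ∀ q : W, ‖q‖ = 1 → 0 < ‖Λ.symm q‖ := by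
    intro q hq
    rw [norm_pos_iff]
    intro h
    rw [← hs0] at h
    rw [Λ.symm.injective h, norm_zero] at hq
    exact one_ne_zero hq.symm
  have homs : ∀ (t : ℝ) (q : W), 0 < t → Λ.symm (t • q) = t • Λ.symm q := by
    intro t q ht
    apply Λ.injective
    rw [Λ.apply_symm_apply, hom t _ ht, Λ.apply_symm_apply]
  refine ⟨{ toFun := fun p => ⟨‖Λ p.1‖⁻¹ • Λ p.1, ?_, hL _ p.2.2 _ (inv_pos.2 (hne _ p.2.1))⟩
            invFun := fun q => ⟨‖Λ.symm q.1‖⁻¹ • Λ.symm q.1, ?_, ?_⟩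
            left_inv := ?_
            right_inv := ?_
            continuous_toFun := ?_
            continuous_invFun := ?_ }⟩
  · rw [norm_smul, norm_inv, norm_norm]
    exact inv_mul_cancel₀ (hne _ p.2.1).ne'
  · rw [norm_smul, norm_inv, norm_norm]
    exact inv_mul_cancel₀ (hnes _ q.2.1).ne'
  · rw [hom _ _ (inv_pos.2 (hnes _ q.2.1)), Λ.apply_symm_apply]
    exact hL _ q.2.2 _ (inv_pos.2 (hnes _ q.2.1))
  · rintro ⟨p, hp, h1⟩
    apply Subtype.ext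
    have hp0 := hne p hp
    show ‖Λ.symm (‖Λ p‖⁻¹ • Λ p)‖⁻¹ • Λ.symm (‖Λ p‖⁻¹ • Λ p) = p
    rw [homs _ _ (inv_pos.2 hp0), Λ.symm_apply_apply, norm_smul, norm_inv, norm_norm, hp, mul_one,
      inv_inv, smul_smul, mul_inv_cancel₀ hp0.ne', one_smul]
  · rintro ⟨q, hq, h1⟩
    apply Subtype.ext
    have hq0 := hnes q hq
    show ‖Λ (‖Λ.symm q‖⁻¹ • Λ.symm q)‖⁻¹ • Λ (‖Λ.symm q‖⁻¹ • Λ.symm q) = q
    rw [hom _ _ (inv_pos.2 hq0), Λ.apply_symm_apply, norm_smul, norm_inv, norm_norm, hq, mul_one,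
      inv_inv, smul_smul, mul_inv_cancel₀ hq0.ne', one_smul]
  · refine Continuous.subtype_mk ?_ _
    have hc : Continuous fun p : {p : V | ‖p‖ = 1 ∧ Λ p ∈ L} => Λ p.1 :=
      Λ.continuous.comp continuous_subtype_val
    exact (hc.norm.inv₀ (fun p => (hne _ p.2.1).ne')).smul hc
  · refine Continuous.subtype_mk ?_ _
    have hc : Continuous fun q : {q : W | ‖q‖ = 1 ∧ q ∈ L} => Λ.symm q.1 :=
      Λ.symm.continuous.comp continuous_subtype_val
    exact (hc.norm.inv₀ (fun p => (hnes _ p.2.1).ne')).smul hc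

end Pool.Agent.Helper13.Venn
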